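import Pool.Agent.RCM.StmtsA

/-!
# Squad RCA, row RNB (helper21): facts on `Rn`
-/

set_option autoImplicit false

namespace Pool.Agent.RCM.H21A

open Set Pool.Agent.RCM

universe u

variable {E : Type u} {K : Type} {M N : Matroid E} {κ : E → K} {X : Set K}

lemma rn_mono {P : Set E} {a : ℕ} {T T' : Set E} (h : Rn M N κ P X a T T') :
    ∀ b : ℕ, a ≤ b → Rn M N κ P X b T T' := by
  induction h with
  | rfl a T => intro b _; exact Rn.rfl b T
  | step a T T' T'' _ hm ih =>
    intro b hb
    obtain ⟨c, rfl⟩ : ∃ c, b = c + 1 := ⟨b - 1, by omega⟩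
    exact Rn.step c T T' T'' (ih c (by omega)) hm

lemma rn_trans {P : Set E} {a b : ℕ} {T T' T'' : Set E} (h : Rn M N κ P X a T T')
    (h' : Rn M N κ P X b T' T'') : Rn M N κ P X (a + b) T T'' := by
  induction h' with
  | rfl b T₁ => exact rn_mono h _ (by omega)
  | step b T₁ T₂ T₃ _ hm ih =>
    rw [← add_assoc]
    exact Rn.step (a + b) T T₂ T₃ (ih h) hm

/-- RNB. -/
theorem rnb : RnbStmt.{u} := by
  intro E K _ M N κ X
  refine ⟨fun P a b T T' hab h => rn_mono h b hab, fun P a b T T' T'' h h' => rn_trans h h',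
    fun P P' a T T' hP h => ?_, fun P a T T' h => ?_, fun P a T T' h => ?_⟩
  · induction h with
    | rfl a T => exact Rn.rfl a T
    | step a T T' T'' _ hm ih =>
      obtain ⟨x, y, h1, h2, h3, h4, h5, h6⟩ := hm
      exact Rn.step a T T' T'' ih ⟨x, y, h1, h2, h3,
        fun hx => h4 (M.closure_subset_closure (Set.union_subset_union_right _ hP) hx), h5, h6⟩
  · induction h with
    | rfl a T => exact Relation.ReflTransGen.refl
    | step a T T' T'' _ hm ih => exact ih.tail hm
  · induction h with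
    | rfl a T => simp
    | step a T T' T'' _ hm ih =>
      obtain ⟨x, y, h1, h2, h3, h4, h5, rfl⟩ := hm
      have h7 : T \ insert x (T' \ {y}) ⊆ insert y (T \ T') := by
        rintro z ⟨hz, hz'⟩
        by_cases hy : z = y
        · exact Or.inl hy
        · exact Or.inr ⟨hz, fun h => hz' (Or.inr ⟨h, hy⟩)⟩
      calc (T \ insert x (T' \ {y})).ncard ≤ (insert y (T \ T')).ncard :=
            Set.ncard_le_ncard h7 (Set.toFinite _)
        _ ≤ (T \ T').ncard + 1 := Set.ncard_insert_le _ _
        _ ≤ a + 1 := by omega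

end Pool.Agent.RCM.H21A
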